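import Pool.Agent.Helper7.KS2.Defs

/-!
# Packet E (MP_c4bd07_co): the local lemma applied to the numbers of saving colours
-/

set_option autoImplicit false
open Classical

namespace Pool.Agent.Helper9.KS2E

open Pool.Agent.Helper41.Girth4 Pool.Agent.Helper51.Girth4 Pool.Agent.Helper7.KS2

variable {V : Type} [Fintype V]

/-- closed neighbourhood -/
noncomputable def cn (G : SimpleGraph V) (v : V) : Finset V :=
  Finset.univ.filter (fun u => u = v ∨ G.Adj v u)

theorem mem_cn (G : SimpleGraph V) (v u : V) : u ∈ cn G v ↔ u = v ∨ G.Adj v u := by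
  simp [cn]

theorem mem_cn_symm (G : SimpleGraph V) {v u : V} (h : u ∈ cn G v) : v ∈ cn G u := by
  rw [mem_cn] at h ⊢
  rcases h with h | h
  · exact Or.inl h.symm
  · exact Or.inr h.symm

theorem card_cn (G : SimpleGraph V) (v : V) : (cn G v).card ≤ dg G v + 1 := by
  have : cn G v ⊆ insert v (Finset.univ.filter (fun w => G.Adj v w)) := by
    intro u hu
    rw [mem_cn] at hu
    rw [Finset.mem_insert, Finset.mem_filter]
    rcases hu with h | h
    · exact Or.inl h
    · exact Or.inr ⟨Finset.mem_univ _, h⟩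
  exact (Finset.card_le_card this).trans (Finset.card_insert_le _ _)

theorem card_step (G : SimpleGraph V) (D : ℕ) (hD : ∀ v, (cn G v).card ≤ D) (X : Finset V) :
    (X.biUnion (cn G)).card ≤ X.card * D := by
  refine Finset.card_biUnion_le.trans ?_
  refine (Finset.sum_le_card_nsmul X _ D (fun v _ => hD v)).trans ?_
  rw [smul_eq_mul]

theorem sav_mono {c Q : ℕ} (G : SimpleGraph V) (L : V → Finset (Fin c))
    (v : V) (w w' : V → Fin c × Fin (Q + 1))
    (h : ∀ u z, (u = v ∨ G.Adj v u) → (z = u ∨ G.Adj u z) → w z = w' z) (a : Fin c)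
    (hs : sav G L w v a) : sav G L w' v a := by
  have hc : ∀ u z, (u = v ∨ G.Adj v u) → (z = u ∨ G.Adj u z) → (col L w z a ↔ col L w' z a) := by
    intro u z hu hz
    unfold col
    rw [h u z hu hz]
  rcases hs with ⟨u, x, hux, hu, hx, hnux, cu, cx, h1, h2⟩ | ⟨ha, u, hu, cu, h1, h2⟩
  · refine Or.inl ⟨u, x, hux, hu, hx, hnux, ?_, ?_, ?_, ?_⟩
    · exact (hc u u (Or.inr hu) (Or.inl rfl)).1 cu
    · exact (hc x x (Or.inr hx) (Or.inl rfl)).1 cx
    · intro z hz cz
      exact h1 z hz ((hc z z (Or.inr hz) (Or.inl rfl)).2 cz)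
    · intro z hz hnz cz
      rcases hz with hz' | hz'
      · exact h2 z (Or.inl hz') hnz ((hc u z (Or.inr hu) (Or.inr hz')).2 cz)
      · exact h2 z (Or.inr hz') hnz ((hc x z (Or.inr hx) (Or.inr hz')).2 cz)
  · refine Or.inr ⟨ha, u, hu, ?_, ?_, ?_⟩
    · exact (hc u u (Or.inr hu) (Or.inl rfl)).1 cu
    · intro z hz cz
      exact h1 z hz ((hc z z (Or.inr hz) (Or.inl rfl)).2 cz)
    · intro z hz hnz cz
      exact h2 z hz hnz ((hc u z (Or.inr hu) (Or.inr hz)).2 cz)

theorem nsav_congr {c Q : ℕ} (G : SimpleGraph V) (L : V → Finset (Fin c))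
    (v : V) (w w' : V → Fin c × Fin (Q + 1))
    (h : ∀ u z, (u = v ∨ G.Adj v u) → (z = u ∨ G.Adj u z) → w z = w' z) :
    nsav G L w v = nsav G L w' v := by
  unfold nsav
  congr 1
  apply Finset.filter_congr
  intro a _
  exact ⟨sav_mono G L v w w' h a, sav_mono G L v w' w (fun u z hu hz => (h u z hu hz).symm) a⟩

/-- Packet E. -/
theorem stmtLocalL : StmtLocalL := by
  intro Q M c s hM hc V _ G L T hdg hPr
  have hcn : ∀ v, (cn G v).card ≤ 3 * M + 1 := fun v =>
    (card_cn G v).trans (Nat.succ_le_succ (hdg v))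
  haveI : Nonempty (Fin c × Fin (Q + 1)) := ⟨(⟨0, hc⟩, 0)⟩
  let S : V → Set V := fun v => {z | ∃ u, (u = v ∨ G.Adj v u) ∧ (z = u ∨ G.Adj u z)}
  let A : V → (V → Fin c × Fin (Q + 1)) → Prop := fun v w => T v ∧ (nsav G L w v : ℝ) < s
  have hMr : (0 : ℝ) < 3 * (M : ℝ) + 1 := by positivity
  obtain ⟨w, hw⟩ := stmtLLL (I := V) (J := V) (L := Fin c × Fin (Q + 1)) S A
    (by
      intro v w w' hww' hA
      refine ⟨hA.1, ?_⟩
      have : nsav G L w v = nsav G L w' v := by
        apply nsav_congr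
        intro u z hu hz
        exact hww' z ⟨u, hu, hz⟩
      rw [← this]
      exact hA.2)
    (1 / (4 * (3 * (M : ℝ) + 1) ^ 4)) ((3 * M + 1) ^ 4)
    (by
      intro v
      by_cases hT : T v
      · refine le_trans (Pr_mono ?_) (hPr v hT)
        intro w hA
        exact hA.2
      · have : Pr (A v) = Pr (fun _ : V → Fin c × Fin (Q + 1) => False) := by
          apply Pr_congr
          intro w
          exact ⟨fun h => hT h.1, fun h => h.elim⟩
        rw [this, Pr_false]
        positivity)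
    (Nat.one_le_pow _ _ (Nat.succ_pos _))
    (by
      intro v
      let X : Finset V := (((cn G v).biUnion (cn G)).biUnion (cn G)).biUnion (cn G)
      have hX : X.card ≤ (3 * M + 1) ^ 4 := by
        have h1 := card_step G (3 * M + 1) hcn (cn G v)
        have h2 := card_step G (3 * M + 1) hcn ((cn G v).biUnion (cn G))
        have h3 := card_step G (3 * M + 1) hcn (((cn G v).biUnion (cn G)).biUnion (cn G))
        have h0 := hcn v
        calc X.card ≤ _ := h3
          _ ≤ (((cn G v).biUnion (cn G)).card * (3 * M + 1)) * (3 * M + 1) :=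
              Nat.mul_le_mul_right _ h2
          _ ≤ (((cn G v).card * (3 * M + 1)) * (3 * M + 1)) * (3 * M + 1) :=
              Nat.mul_le_mul_right _ (Nat.mul_le_mul_right _ h1)
          _ ≤ (((3 * M + 1) * (3 * M + 1)) * (3 * M + 1)) * (3 * M + 1) :=
              Nat.mul_le_mul_right _ (Nat.mul_le_mul_right _ (Nat.mul_le_mul_right _ h0))
          _ = (3 * M + 1) ^ 4 := by ring
      refine le_trans ?_ hX
      rw [Nat.card_eq_fintype_card, Fintype.card_subtype]
      apply Finset.card_le_card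
      intro v' hv'
      rw [Finset.mem_filter] at hv'
      obtain ⟨z, hz, hz'⟩ := Set.not_disjoint_iff.1 hv'.2
      obtain ⟨u, hu, huz⟩ := hz
      obtain ⟨u', hu', huz'⟩ := hz'
      show v' ∈ (((cn G v).biUnion (cn G)).biUnion (cn G)).biUnion (cn G)
      refine Finset.mem_biUnion.2 ⟨u', ?_, ?_⟩
      · refine Finset.mem_biUnion.2 ⟨z, ?_, ?_⟩
        · exact Finset.mem_biUnion.2 ⟨u, (mem_cn _ _ _).2 hu, (mem_cn _ _ _).2 huz⟩
        · exact mem_cn_symm G ((mem_cn _ _ _).2 huz')
      · exact mem_cn_symm G ((mem_cn _ _ _).2 hu'))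
    (by
      push_cast
      rw [div_eq_mul_inv, one_mul]
      have : (4 : ℝ) * (4 * (3 * (M : ℝ) + 1) ^ 4)⁻¹ * (3 * (M : ℝ) + 1) ^ 4 = 1 := by
        field_simp
      exact this.le)
  refine ⟨w, fun v hv => ?_⟩
  by_contra hcon
  exact hw v ⟨hv, not_le.1 hcon⟩

end Pool.Agent.Helper9.KS2E
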